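import Pool.Agent.W830.RD.Stm

/-!
# Project RD, part PCARD: the sizes of the two kinds of patterns
-/

set_option autoImplicit false

namespace Pool.Agent.W397.RD.PCard

open Pool.Agent.W830.RD
open Finset
open scoped Classical

/-- The pairs `i < j < a`. -/
noncomputable def TT (a : ℕ) : Finset (ℕ × ℕ) :=
  ((Finset.range a) ×ˢ (Finset.range a)).filter (fun e => e.1 < e.2)

theorem mem_TT {a : ℕ} {e : ℕ × ℕ} : e ∈ TT a ↔ e.1 < e.2 ∧ e.2 < a := by
  unfold TT
  rw [Finset.mem_filter, Finset.mem_product, Finset.mem_range, Finset.mem_range]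
  omega

theorem card_TT (a : ℕ) : 2 * (TT a).card = a * (a - 1) := by
  have h : (TT a).card = ∑ j ∈ Finset.range a, j := by
    unfold TT
    rw [Finset.card_filter, Finset.sum_product_right]
    apply Finset.sum_congr rfl
    intro j hj
    rw [Finset.mem_range] at hj
    rw [← Finset.card_filter]
    have : (Finset.range a).filter (fun i => i < j) = Finset.range j := by
      ext i
      rw [Finset.mem_filter, Finset.mem_range, Finset.mem_range]
      omega
    change ((Finset.range a).filter (fun i => i < j)).card = j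
    rw [this, Finset.card_range]
  rw [h, mul_comm, Finset.sum_range_id_mul_two]

/-- The underlying pair of natural numbers. -/
def vv {n : ℕ} (e : Fin n × Fin n) : ℕ × ℕ := ((e.1 : ℕ), (e.2 : ℕ))

theorem vv_inj {n : ℕ} : Function.Injective (vv : Fin n × Fin n → ℕ × ℕ) := by
  intro e f h
  unfold vv at h
  rw [Prod.mk.injEq] at h
  exact Prod.ext (Fin.ext h.1) (Fin.ext h.2)

theorem pat1_card (K g : ℕ) : K * (g * (g - 1)) ≤ 2 * (pat1 K g).card := by
  rw [← Finset.card_image_of_injective (pat1 K g) (vv_inj (n := K * g))]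
  have hsub : ((Finset.range K) ×ˢ (TT g)).image
      (fun q : ℕ × (ℕ × ℕ) => (q.1 * g + q.2.1, q.1 * g + q.2.2)) ⊆ (pat1 K g).image vv := by
    intro e he
    rw [Finset.mem_image] at he
    obtain ⟨⟨k, i, j⟩, hq, rfl⟩ := he
    rw [Finset.mem_product, Finset.mem_range, mem_TT] at hq
    obtain ⟨hk, hij, hj⟩ := hq
    simp only at hk hij hj
    have hb : (k + 1) * g ≤ K * g := Nat.mul_le_mul_right g hk
    rw [Nat.add_mul, Nat.one_mul] at hb
    rw [Finset.mem_image]
    refine ⟨(⟨k * g + i, by omega⟩, ⟨k * g + j, by omega⟩), ?_, rfl⟩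
    unfold pat1
    rw [Finset.mem_filter]
    refine ⟨Finset.mem_univ _, ?_, ?_⟩
    · rw [Fin.mk_lt_mk]
      omega
    · have hg : 0 < g := by omega
      simp only
      rw [Nat.add_comm (k * g) i, Nat.add_comm (k * g) j, Nat.add_mul_div_right _ _ hg,
        Nat.add_mul_div_right _ _ hg, Nat.div_eq_of_lt hj, Nat.div_eq_of_lt (hij.trans hj)]
  have hinj : Set.InjOn (fun q : ℕ × (ℕ × ℕ) => (q.1 * g + q.2.1, q.1 * g + q.2.2))
      (((Finset.range K) ×ˢ (TT g) : Finset (ℕ × (ℕ × ℕ))) : Set (ℕ × (ℕ × ℕ))) := by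
    rintro ⟨k, i, j⟩ hq ⟨k', i', j'⟩ hq' h
    rw [Finset.mem_coe, Finset.mem_product, Finset.mem_range, mem_TT] at hq hq'
    obtain ⟨hk, hij, hj⟩ := hq
    obtain ⟨hk', hij', hj'⟩ := hq'
    simp only [Prod.mk.injEq] at h
    obtain ⟨h1, h2⟩ := h
    simp only at hk hij hj hk' hij' hj'
    have hg : 0 < g := by omega
    have e1 : (k * g + i) / g = k := by
      rw [Nat.add_comm, Nat.add_mul_div_right _ _ hg, Nat.div_eq_of_lt (hij.trans hj), Nat.zero_add]
    have e2 : (k' * g + i') / g = k' := by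
      rw [Nat.add_comm, Nat.add_mul_div_right _ _ hg, Nat.div_eq_of_lt (hij'.trans hj'),
        Nat.zero_add]
    have hkk : k = k' := by rw [← e1, ← e2, h1]
    subst hkk
    have hi : i = i' := by omega
    have hj2 : j = j' := by omega
    rw [hi, hj2]
  have hcard := Finset.card_le_card hsub
  rw [Finset.card_image_of_injOn hinj, Finset.card_product, Finset.card_range] at hcard
  calc K * (g * (g - 1)) = K * (2 * (TT g).card) := by rw [card_TT]
    _ = 2 * (K * (TT g).card) := by ring
    _ ≤ 2 * ((pat1 K g).image vv).card := Nat.mul_le_mul_left 2 hcard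

/-- Shifted pairs. -/
def shf (b : ℕ) {r : ℕ} (f : Fin r × Fin r) : ℕ × ℕ := (b + (f.1 : ℕ), b + (f.2 : ℕ))

theorem shf_inj (b r : ℕ) : Function.Injective (shf b : Fin r × Fin r → ℕ × ℕ) := by
  intro e f h
  unfold shf at h
  rw [Prod.mk.injEq] at h
  exact Prod.ext (Fin.ext (by omega)) (Fin.ext (by omega))

theorem comb_card (a r1 r2 : ℕ) (π1 : Finset (Fin r1 × Fin r1)) (π2 : Finset (Fin r2 × Fin r2))
    (h1 : ∀ e ∈ π1, e.1 < e.2) (h2 : ∀ e ∈ π2, e.1 < e.2) :
    2 * (comb a r1 r2 π1 π2).card = a * (a - 1) + 2 * π1.card + 2 * π2.card := by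
  rw [← Finset.card_image_of_injective (comb a r1 r2 π1 π2) (vv_inj (n := a + r1 + r2))]
  have himg : (comb a r1 r2 π1 π2).image vv
      = (TT a ∪ π1.image (shf a)) ∪ π2.image (shf (a + r1)) := by
    ext ⟨x, y⟩
    rw [Finset.mem_union, Finset.mem_union, mem_TT, Finset.mem_image, Finset.mem_image,
      Finset.mem_image]
    constructor
    · rintro ⟨⟨e1, e2⟩, he, hxy⟩
      unfold comb at he
      rw [Finset.mem_filter] at he
      unfold vv at hxy
      rw [Prod.mk.injEq] at hxy
      obtain ⟨hx, hy⟩ := hxy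
      obtain ⟨-, hlt, hcase⟩ := he
      simp only at hx hy hlt hcase
      rw [Fin.lt_def] at hlt
      rcases hcase with h | ⟨f, hf, hf1, hf2⟩ | ⟨f, hf, hf1, hf2⟩
      · left; left
        simp only
        omega
      · left; right
        refine ⟨f, hf, ?_⟩
        unfold shf
        rw [← hx, ← hy, hf1, hf2]
      · right
        refine ⟨f, hf, ?_⟩
        unfold shf
        rw [← hx, ← hy, hf1, hf2]
    · rintro ((⟨hxy, hy⟩ | ⟨f, hf, hff⟩) | ⟨f, hf, hff⟩)
      · simp only at hxy hy
        refine ⟨(⟨x, by omega⟩, ⟨y, by omega⟩), ?_, rfl⟩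
        unfold comb
        rw [Finset.mem_filter]
        refine ⟨Finset.mem_univ _, ?_, Or.inl hy⟩
        rw [Fin.mk_lt_mk]
        exact hxy
      · unfold shf at hff
        rw [Prod.mk.injEq] at hff
        obtain ⟨hx, hy⟩ := hff
        have hlt := h1 f hf
        rw [Fin.lt_def] at hlt
        have hb1 := f.1.2
        have hb2 := f.2.2
        refine ⟨(⟨x, by omega⟩, ⟨y, by omega⟩), ?_, rfl⟩
        unfold comb
        rw [Finset.mem_filter]
        refine ⟨Finset.mem_univ _, ?_, Or.inr (Or.inl ⟨f, hf, hx.symm, hy.symm⟩)⟩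
        rw [Fin.mk_lt_mk]
        omega
      · unfold shf at hff
        rw [Prod.mk.injEq] at hff
        obtain ⟨hx, hy⟩ := hff
        have hlt := h2 f hf
        rw [Fin.lt_def] at hlt
        have hb1 := f.1.2
        have hb2 := f.2.2
        refine ⟨(⟨x, by omega⟩, ⟨y, by omega⟩), ?_, rfl⟩
        unfold comb
        rw [Finset.mem_filter]
        refine ⟨Finset.mem_univ _, ?_, Or.inr (Or.inr ⟨f, hf, hx.symm, hy.symm⟩)⟩
        rw [Fin.mk_lt_mk]
        omega
  have hd1 : Disjoint (TT a) (π1.image (shf a)) := by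
    rw [Finset.disjoint_left]
    intro e he hf
    rw [mem_TT] at he
    rw [Finset.mem_image] at hf
    obtain ⟨f, -, rfl⟩ := hf
    unfold shf at he
    simp only at he
    omega
  have hd2 : Disjoint (TT a ∪ π1.image (shf a)) (π2.image (shf (a + r1))) := by
    rw [Finset.disjoint_left]
    intro e he hf
    rw [Finset.mem_union, mem_TT, Finset.mem_image] at he
    rw [Finset.mem_image] at hf
    obtain ⟨f, -, rfl⟩ := hf
    rcases he with he | ⟨f', -, he⟩
    · unfold shf at he
      simp only at he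
      omega
    · unfold shf at he
      rw [Prod.mk.injEq] at he
      have := f'.1.2
      omega
  rw [himg, Finset.card_union_of_disjoint hd2, Finset.card_union_of_disjoint hd1,
    Finset.card_image_of_injective _ (shf_inj a r1),
    Finset.card_image_of_injective _ (shf_inj (a + r1) r2), ← card_TT a]
  ring

theorem main : S_PCARD := ⟨pat1_card, comb_card⟩

end Pool.Agent.W397.RD.PCard
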